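import Mathlib

/-! Torses and surfaces of bounded extrinsic curvature: the definitions used in the statement. -/

set_option autoImplicit false

namespace Pool.Agent.V11192.Torse

open MeasureTheory Set Topology
open scoped Manifold NNReal ENNReal InnerProductSpace

/-- the plane, model space of surfaces -/
abbrev E2 := EuclideanSpace ℝ (Fin 2)

/-- Euclidean 3-space -/
abbrev E3 := EuclideanSpace ℝ (Fin 3)

section

variable (W : Type*) [NormedAddCommGroup W] [NormedSpace ℝ W] {V : Type*} [NormedAddCommGroup V]
  [NormedSpace ℝ V] {M : Type*} [TopologicalSpace M] [ChartedSpace W M]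

/-- `f` is continuously differentiable -/
def IsC1 (f : M → V) : Prop := ContMDiff 𝓘(ℝ, W) 𝓘(ℝ, V) 1 f

/-- the derivative of `f` at `p`, as a map of the tangent space `W` of `M` at `p` -/
noncomputable def deriv1 (f : M → V) (p : M) : W → V :=
  fun ξ => mfderiv 𝓘(ℝ, W) 𝓘(ℝ, V) f p ξ

end

section

variable {V : Type*} [NormedAddCommGroup V] [NormedSpace ℝ V] [MeasureSpace V]

/-- The area (Lebesgue measure on the unit sphere) of a subset of the unit sphere. -/
noncomputable def sphArea (A : Set V) : ℝ≥0∞ :=
  (volume : Measure V).toSphere {u : Metric.sphere (0 : V) 1 | (u : V) ∈ A}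

end

variable {M : Type*} [TopologicalSpace M] [ChartedSpace E2 M]

/-- `f : M → 𝔼³` is a C¹-smooth (immersed) surface: it is C¹ and its derivative is injective at
every point of the two-dimensional manifold `M`. -/
structure IsSurface (f : M → E3) : Prop where
  contMDiff : IsC1 E2 f
  immersion : ∀ p : M, Function.Injective (deriv1 E2 f p)

/-- The direction of the tangent plane at the point `p`: the range of the derivative. The tangent
plane is `f p + tangentDir f p`. -/
def tangentDir (f : M → E3) (p : M) : Set E3 := range (deriv1 E2 f p)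

/-- `f` is a torse: through every point `p` passes a straight segment contained in the surface
(`f (c t) = f p + t • w` for a continuous curve `c` in `M` with `c 0 = p`) along which the tangent
plane is constant. -/
def IsTorse (f : M → E3) : Prop :=
  ∀ p : M, ∃ (w : E3) (ε : ℝ) (c : ℝ → M), w ≠ 0 ∧ 0 < ε ∧ ContinuousOn c (Ioo (-ε) ε) ∧ c 0 = p ∧
    ∀ t ∈ Ioo (-ε) ε, f (c t) = f p + t • w ∧ tangentDir f (c t) = tangentDir f p

/-- `n` is a continuous unit normal of the piece `G` of the surface. -/
def IsUnitNormal (f : M → E3) (G : Set M) (n : M → E3) : Prop :=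
  ContinuousOn n G ∧ ∀ p ∈ G, ‖n p‖ = 1 ∧ ∀ w ∈ tangentDir f p, ⟪n p, w⟫_ℝ = 0

/-- The area (Lebesgue measure on the unit sphere) of a subset of the unit sphere of `𝔼³`. -/
noncomputable def sphereArea (A : Set E3) : ℝ≥0∞ := sphArea A

/-- `f` is a surface of bounded extrinsic curvature in the sense of Pogorelov. -/
def IsBECP (f : M → E3) : Prop :=
  ∀ p : M, ∃ G : Set M, IsOpen G ∧ p ∈ G ∧ ∃ n : M → E3, IsUnitNormal f G n ∧
    ∃ C : ℝ≥0, ∀ (k : ℕ) (H : Fin k → Set M), (∀ i, IsClosed (H i)) → (∀ i, H i ⊆ G) →
      Pairwise (fun i j => Disjoint (H i) (H j)) → ∑ i, sphereArea (n '' H i) ≤ C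

end Pool.Agent.V11192.Torse
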