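import Pool.Agent.V11192.Torse.Sph

/-! A C¹ surface is locally a graph. -/

set_option autoImplicit false

namespace Pool.Agent.V11192.Torse

open MeasureTheory Set Topology Metric
open scoped Manifold NNReal ENNReal InnerProductSpace Pointwise ContDiff

/-- local graph representation of a surface, Euclidean version -/
theorem graph_param {F : E2 → E3} {T : Set E2} (hT : IsOpen T) (hF : ∀ u ∈ T, ContDiffAt ℝ 1 F u)
    (hinj : ∀ u ∈ T, Function.Injective (fderiv ℝ F u)) {u₀ : E2} (hu₀ : u₀ ∈ T) :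
    ∃ (i : Fin 3) (v : ℝ × ℝ → ℝ) (h : ℝ × ℝ → E2) (G : Set E2) (Ω : Set (ℝ × ℝ)) (L : ℝ≥0),
      IsOpen G ∧ u₀ ∈ G ∧ G ⊆ T ∧ IsOpen Ω ∧ ContDiffOn ℝ 1 v Ω ∧ LipschitzOnWith L v Ω ∧
      (∀ u ∈ G, pr i (F u) ∈ Ω ∧ h (pr i (F u)) = u) ∧
      (∀ x ∈ Ω, h x ∈ G ∧ F (h x) = emb i (x, v x) ∧
        range (fderiv ℝ F (h x)) = {w : E3 | w i = fderiv ℝ v x (pr i w)}) := by
  set A := fderiv ℝ F u₀ with hA
  have hAinj : Function.Injective A := hinj u₀ hu₀
  -- choice of the coordinate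
  have hi : ∃ i : Fin 3, EuclideanSpace.single i (1 : ℝ) ∉ range A := by
    by_contra hcon
    push Not at hcon
    have htop : LinearMap.range (A : E2 →ₗ[ℝ] E3) = ⊤ := by
      rw [eq_top_iff]
      intro w _
      have hw : w = ∑ k, w k • EuclideanSpace.single k (1 : ℝ) := by
        ext j
        rw [WithLp.ofLp_sum, Finset.sum_apply]
        simp [PiLp.single_apply]
      rw [hw]
      refine Submodule.sum_mem _ fun k _ => Submodule.smul_mem _ _ ?_
      obtain ⟨ξ, hξ⟩ := hcon k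
      exact ⟨ξ, hξ⟩
    have h1 := LinearMap.finrank_range_le (A : E2 →ₗ[ℝ] E3)
    rw [htop, finrank_top, finrank_euclideanSpace, finrank_euclideanSpace] at h1
    simp at h1
  obtain ⟨i, hi⟩ := hi
  set B : E2 →L[ℝ] ℝ × ℝ := (pr i).comp A with hB
  have hBinj : Function.Injective B := by
    rw [injective_iff_map_eq_zero]
    intro ξ hξ
    by_contra hne
    have h1 : A ξ ≠ 0 := fun h => hne (hAinj (by rw [h, map_zero]))
    have h2 : A ξ = (A ξ i) • EuclideanSpace.single i (1 : ℝ) := by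
      apply ext_coord i
      · rw [map_smul]
        have h3 : pr i (A ξ) = 0 := hξ
        rw [h3]
        have h4 : pr i (EuclideanSpace.single i (1 : ℝ)) = 0 := by
          rw [pr_apply]
          simp [Fin.succAbove_ne]
        rw [h4, smul_zero]
      · simp
    have h5 : A ξ i ≠ 0 := by
      intro h
      rw [h, zero_smul] at h2
      exact h1 h2
    apply hi
    refine ⟨(A ξ i)⁻¹ • ξ, ?_⟩
    rw [map_smul, h2]
    simp [smul_smul, h5]
  have hfin : Module.finrank ℝ E2 = Module.finrank ℝ (ℝ × ℝ) := by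
    rw [finrank_euclideanSpace]
    simp
  set B' : E2 ≃L[ℝ] ℝ × ℝ :=
    (LinearEquiv.ofInjectiveOfFinrankEq (B : E2 →ₗ[ℝ] ℝ × ℝ) hBinj hfin).toContinuousLinearEquiv
    with hB'
  have hB'B : (B' : E2 →L[ℝ] ℝ × ℝ) = B := by
    ext1 ξ
    rfl
  set P : E2 → ℝ × ℝ := fun u => pr i (F u) with hP
  have hPc : ∀ u ∈ T, ContDiffAt ℝ 1 P u := fun u hu => (pr i).contDiff.contDiffAt.comp u (hF u hu)
  have hPd : HasFDerivAt P (B' : E2 →L[ℝ] ℝ × ℝ) u₀ := by
    rw [hB'B]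
    exact (pr i).hasFDerivAt.comp u₀ ((hF u₀ hu₀).differentiableAt one_ne_zero).hasFDerivAt
  set Ψ := (hPc u₀ hu₀).toOpenPartialHomeomorph P hPd one_ne_zero with hΨ
  have hΨc : (Ψ : E2 → ℝ × ℝ) = P := rfl
  have hu₀Ψ : u₀ ∈ Ψ.source :=
    ContDiffAt.mem_toOpenPartialHomeomorph_source (hPc u₀ hu₀) hPd one_ne_zero
  set h : ℝ × ℝ → E2 := fun x => Ψ.symm x with hh
  have hhc : ContDiffAt ℝ 1 h (P u₀) :=
    ContDiffAt.to_localInverse (hPc u₀ hu₀) hPd one_ne_zero
  have hhu₀ : h (P u₀) = u₀ := Ψ.left_inv hu₀Ψ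
  set v : ℝ × ℝ → ℝ := fun x => F (h x) i with hv
  have hcoord : ContDiff ℝ 1 (fun w : E3 => w i) := (EuclideanSpace.proj (𝕜 := ℝ) i).contDiff
  have hvc : ∀ x, h x ∈ T → ContDiffAt ℝ 1 h x → ContDiffAt ℝ 1 v x := fun x hx hhx =>
    hcoord.contDiffAt.comp x ((hF _ hx).comp x hhx)
  obtain ⟨L, t, ht, hL⟩ := (hvc (P u₀) (by rw [hhu₀]; exact hu₀) hhc).exists_lipschitzOnWith
  have hev : ∀ᶠ x in 𝓝 (P u₀), ContDiffAt ℝ 1 h x ∧ x ∈ t ∧ x ∈ Ψ.target ∧ h x ∈ T := by
    refine (hhc.eventually (by simp)).and (Filter.Eventually.and ht ?_)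
    refine Filter.Eventually.and (Ψ.open_target.mem_nhds (Ψ.map_source hu₀Ψ)) ?_
    exact hhc.continuousAt.eventually_mem (by rw [hhu₀]; exact hT.mem_nhds hu₀)
  obtain ⟨Ω, hΩ, hΩo, hmem⟩ := _root_.eventually_nhds_iff.1 hev
  have hder : ∀ x ∈ Ω, range (fderiv ℝ F (h x)) = {w : E3 | w i = fderiv ℝ v x (pr i w)} := by
    intro x hx
    obtain ⟨h1, h2, h3, h4⟩ := hΩ x hx
    have hFd : HasFDerivAt F (fderiv ℝ F (h x)) (h x) :=
      ((hF _ h4).differentiableAt one_ne_zero).hasFDerivAt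
    have hhd : HasFDerivAt h (fderiv ℝ h x) x := (h1.differentiableAt one_ne_zero).hasFDerivAt
    have hFh := hFd.comp x hhd
    have hPh : (pr i).comp ((fderiv ℝ F (h x)).comp (fderiv ℝ h x)) =
        ContinuousLinearMap.id ℝ (ℝ × ℝ) := by
      have e1 : HasFDerivAt (fun y => pr i (F (h y)))
          ((pr i).comp ((fderiv ℝ F (h x)).comp (fderiv ℝ h x))) x :=
        (pr i).hasFDerivAt.comp x hFh
      have e2 : (fun y => pr i (F (h y))) =ᶠ[𝓝 x] id := by
        filter_upwards [hΩo.mem_nhds hx] with y hy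
        exact Ψ.right_inv (hΩ y hy).2.2.1
      exact e1.unique ((hasFDerivAt_id x).congr_of_eventuallyEq e2)
    have hinjh : Function.Injective (fderiv ℝ h x) := by
      intro a b hab
      have e1 := congrArg (fun g : ℝ × ℝ →L[ℝ] ℝ × ℝ => g a) hPh
      have e2 := congrArg (fun g : ℝ × ℝ →L[ℝ] ℝ × ℝ => g b) hPh
      simp only [ContinuousLinearMap.comp_apply, ContinuousLinearMap.id_apply] at e1 e2
      rw [← e1, ← e2, hab]
    have hsurj : Function.Surjective (fderiv ℝ h x) :=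
      (LinearMap.injective_iff_surjective_of_finrank_eq_finrank hfin.symm).1 hinjh
    have hvd : HasFDerivAt v ((EuclideanSpace.proj (𝕜 := ℝ) i).comp
        ((fderiv ℝ F (h x)).comp (fderiv ℝ h x))) x :=
      (EuclideanSpace.proj (𝕜 := ℝ) i).hasFDerivAt.comp x hFh
    have key : ∀ y : ℝ × ℝ, fderiv ℝ F (h x) (fderiv ℝ h x y) = emb i (y, fderiv ℝ v x y) := by
      intro y
      apply ext_coord i
      · rw [pr_emb]
        exact congrArg (fun g : ℝ × ℝ →L[ℝ] ℝ × ℝ => g y) hPh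
      · rw [emb_self, hvd.fderiv]
        rfl
    ext w
    constructor
    · rintro ⟨ξ, rfl⟩
      obtain ⟨y, rfl⟩ := hsurj ξ
      rw [key, mem_setOf_eq, pr_emb, emb_self]
    · intro hw
      refine ⟨fderiv ℝ h x (pr i w), ?_⟩
      rw [key, ← (show w i = fderiv ℝ v x (pr i w) from hw), emb_pr]
  refine ⟨i, v, h, Ψ.source ∩ Ψ ⁻¹' Ω ∩ T, Ω, L, ?_, ?_, inter_subset_right, hΩo, ?_, ?_, ?_, ?_⟩
  · exact (Ψ.isOpen_inter_preimage hΩo).inter hT
  · exact ⟨⟨hu₀Ψ, hmem⟩, hu₀⟩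
  · intro x hx
    obtain ⟨h1, h2, h3, h4⟩ := hΩ x hx
    exact (hvc x h4 h1).contDiffWithinAt
  · exact hL.mono fun x hx => (hΩ x hx).2.1
  · rintro u ⟨⟨hu1, hu2⟩, hu3⟩
    exact ⟨hu2, Ψ.left_inv hu1⟩
  · intro x hx
    obtain ⟨h1, h2, h3, h4⟩ := hΩ x hx
    have h5 : P (h x) = x := Ψ.right_inv h3
    refine ⟨⟨⟨Ψ.map_target h3, ?_⟩, h4⟩, ?_, hder x hx⟩
    · show Ψ (h x) ∈ Ω
      rw [hΨc, h5]
      exact hx
    · apply ext_coord i
      · rw [pr_emb]
        exact h5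
      · rw [emb_self]

variable {M : Type*} [TopologicalSpace M] [ChartedSpace E2 M] [IsManifold 𝓘(ℝ, E2) 1 M]

/-- a C¹ surface is locally a graph -/
theorem exists_graph {f : M → E3} (hf : IsSurface f) (p : M) :
    ∃ (i : Fin 3) (v : ℝ × ℝ → ℝ) (g : ℝ × ℝ → M) (G : Set M) (Ω : Set (ℝ × ℝ)) (L : ℝ≥0),
      IsOpen G ∧ p ∈ G ∧ IsOpen Ω ∧ ContDiffOn ℝ 1 v Ω ∧ LipschitzOnWith L v Ω ∧
      (∀ q ∈ G, pr i (f q) ∈ Ω ∧ g (pr i (f q)) = q) ∧
      (∀ x ∈ Ω, g x ∈ G ∧ f (g x) = emb i (x, v x) ∧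
        tangentDir f (g x) = {w : E3 | w i = fderiv ℝ v x (pr i w)}) := by
  set φ := chartAt E2 p with hφ
  set F : E2 → E3 := f ∘ φ.symm with hF
  have hfc : ContMDiff 𝓘(ℝ, E2) 𝓘(ℝ, E3) 1 f := hf.contMDiff
  have hfi : ∀ q, Function.Injective (mfderiv 𝓘(ℝ, E2) 𝓘(ℝ, E3) f q) := hf.immersion
  have hsym : ∀ u ∈ φ.target, ContMDiffAt 𝓘(ℝ, E2) 𝓘(ℝ, E2) 1 φ.symm u := fun u hu =>
    (contMDiffOn_chart_symm (I := 𝓘(ℝ, E2)) (n := 1) (x := p)).contMDiffAt
      (φ.open_target.mem_nhds hu)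
  have hFc : ∀ u ∈ φ.target, ContDiffAt ℝ 1 F u := fun u hu => by
    rw [← contMDiffAt_iff_contDiffAt]
    exact (hfc (φ.symm u)).comp u (hsym u hu)
  have hcomp : ∀ u ∈ φ.target, ∀ ξ, fderiv ℝ F u ξ =
      mfderiv 𝓘(ℝ, E2) 𝓘(ℝ, E3) f (φ.symm u) (mfderiv 𝓘(ℝ, E2) 𝓘(ℝ, E2) φ.symm u ξ) := by
    intro u hu ξ
    rw [← mfderiv_eq_fderiv, hF, mfderiv_comp u ((hfc (φ.symm u)).mdifferentiableAt one_ne_zero)
      ((hsym u hu).mdifferentiableAt one_ne_zero)]
    rfl
  have hbij : ∀ u ∈ φ.target, Function.Bijective (mfderiv 𝓘(ℝ, E2) 𝓘(ℝ, E2) φ.symm u) :=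
    fun u hu => (mdifferentiable_chart (I := 𝓘(ℝ, E2)) p).symm.mfderiv_bijective hu
  have hinj : ∀ u ∈ φ.target, Function.Injective (fderiv ℝ F u) := by
    intro u hu a b hab
    rw [hcomp u hu, hcomp u hu] at hab
    exact (hbij u hu).1 (hfi _ hab)
  have hrange : ∀ u ∈ φ.target, tangentDir f (φ.symm u) = range (fderiv ℝ F u) := by
    intro u hu
    ext w
    constructor
    · rintro ⟨ξ, hξ⟩
      obtain ⟨η, rfl⟩ := (hbij u hu).2 ξ
      exact ⟨η, by rw [hcomp u hu]; exact hξ⟩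
    · rintro ⟨η, rfl⟩
      exact ⟨mfderiv 𝓘(ℝ, E2) 𝓘(ℝ, E2) φ.symm u η, (hcomp u hu η).symm⟩
  obtain ⟨i, v, h, G, Ω, L, hG, hpG, hGT, hΩ, hvc, hvL, h1, h2⟩ :=
    graph_param φ.open_target hFc hinj (φ.map_source (mem_chart_source E2 p))
  refine ⟨i, v, fun x => φ.symm (h x), φ.source ∩ φ ⁻¹' G, Ω, L, φ.isOpen_inter_preimage hG,
    ⟨mem_chart_source E2 p, hpG⟩, hΩ, hvc, hvL, ?_, ?_⟩
  · rintro q ⟨hq1, hq2⟩
    have hFq : F (φ q) = f q := by
      simp only [hF, Function.comp_apply]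
      rw [φ.left_inv hq1]
    obtain ⟨h3, h4⟩ := h1 (φ q) hq2
    rw [hFq] at h3 h4
    refine ⟨h3, ?_⟩
    show φ.symm (h (pr i (f q))) = q
    rw [h4, φ.left_inv hq1]
  · intro x hx
    obtain ⟨h3, h4, h5⟩ := h2 x hx
    have h6 : h x ∈ φ.target := hGT h3
    refine ⟨⟨φ.map_target h6, ?_⟩, h4, ?_⟩
    · rw [mem_preimage, φ.right_inv h6]
      exact h3
    · rw [hrange _ h6]
      exact h5

/-- the tangent plane determines the gradient -/
theorem fderiv_eq_of_plane {i : Fin 3} {a b : ℝ × ℝ →L[ℝ] ℝ}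
    (h : {w : E3 | w i = a (pr i w)} = {w : E3 | w i = b (pr i w)}) : a = b := by
  refine ContinuousLinearMap.ext fun z => ?_
  have h1 : emb i (z, a z) ∈ {w : E3 | w i = a (pr i w)} := by
    rw [mem_setOf_eq, emb_self, pr_emb]
  rw [h, mem_setOf_eq, emb_self, pr_emb] at h1
  exact h1

/-- Every small piece of a torse has spherical image of area zero. -/
theorem local_null {f : M → E3} (hf : IsSurface f) (ht : IsTorse f) (p : M) :
    ∃ G : Set M, IsOpen G ∧ p ∈ G ∧ (∃ n, IsUnitNormal f G n) ∧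
      ∀ n, IsUnitNormal f G n → sphereArea (n '' G) = 0 := by
  obtain ⟨i, v, g, G, Ω, L, hG, hpG, hΩ, hvc, hvL, h1, h2⟩ := exists_graph hf p
  have hvd : DifferentiableOn ℝ v Ω := hvc.differentiableOn one_ne_zero
  -- the planar torse condition
  have hpt : PlanarTorse v Ω := by
    intro x hx
    obtain ⟨hgG, hfg, htg⟩ := h2 x hx
    obtain ⟨w, ε, c, hw, hε, hc, hc0, hc1⟩ := ht (g x)
    have h0 : (0 : ℝ) ∈ Ioo (-ε) ε := ⟨by linarith, hε⟩
    have hcc : ContinuousAt c 0 := hc.continuousAt (Ioo_mem_nhds h0.1 h0.2)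
    have hev : ∀ᶠ t in 𝓝 (0 : ℝ), c t ∈ G := hcc.eventually_mem (by rw [hc0]; exact hG.mem_nhds hgG)
    obtain ⟨δ, hδ, hball⟩ := Metric.eventually_nhds_iff.1
      (hev.and (Ioo_mem_nhds h0.1 h0.2))
    have key : ∀ t : ℝ, |t| < δ → x + t • pr i w ∈ Ω ∧ c t = g (x + t • pr i w) := by
      intro t htδ
      obtain ⟨h3, h4⟩ := hball (show dist t 0 < δ by simpa using htδ)
      obtain ⟨h5, h6⟩ := h1 _ h3
      have h7 : pr i (f (c t)) = x + t • pr i w := by
        rw [(hc1 t h4).1, hfg, map_add, map_smul, pr_emb]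
      rw [h7] at h5 h6
      exact ⟨h5, h6.symm⟩
    refine ⟨pr i w, ?_, δ, hδ, ?_⟩
    · intro hw0
      have h4 := (hball (show dist (δ / 2) 0 < δ by
        rw [Real.dist_eq, sub_zero, abs_of_pos (by linarith)]; linarith)).2
      have h5 := (key (δ / 2) (by rw [abs_of_pos (by linarith)]; linarith)).2
      have h6 := (hc1 _ h4).1
      rw [h5, hw0, smul_zero, add_zero] at h6
      have h7 : (δ / 2) • w = 0 := by
        have := sub_eq_zero.2 h6
        simpa using this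
      rcases smul_eq_zero.1 h7 with h8 | h8
      · linarith
      · exact hw h8
    · intro t htδ
      obtain ⟨h3, h4⟩ := key t htδ
      have h5 := (hball (show dist t 0 < δ by simpa using htδ)).2
      refine ⟨h3, ?_⟩
      have h6 := (hc1 t h5).2
      rw [h4, (h2 _ h3).2.2, htg] at h6
      exact fderiv_eq_of_plane h6
  have hnull : volume (grad v '' Ω) = 0 := null_grad hΩ hvd hvL hpt
  -- the tangent plane in terms of the gradient
  have hfd : ∀ x (y : ℝ × ℝ), fderiv ℝ v x y = (grad v x).1 * y.1 + (grad v x).2 * y.2 := by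
    intro x y
    have : y = y.1 • ((1 : ℝ), (0 : ℝ)) + y.2 • ((0 : ℝ), (1 : ℝ)) := by simp
    conv_lhs => rw [this, map_add, map_smul, map_smul]
    simp only [grad, smul_eq_mul]
    ring
  refine ⟨G, hG, hpG, ?_, ?_⟩
  · -- existence of the unit normal
    set N : ℝ × ℝ → E3 := fun x => emb i (-grad v x, 1) with hN
    have hN0 : ∀ x, N x ≠ 0 := by
      intro x h0
      have := congrArg (fun w : E3 => w i) h0
      simp only [hN] at this
      rw [emb_self] at this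
      simp at this
    have hfc : ContinuousOn (fderiv ℝ v) Ω := hvc.continuousOn_fderiv_of_isOpen hΩ le_rfl
    have hgc : ContinuousOn (grad v) Ω :=
      (hfc.clm_apply continuousOn_const).prodMk (hfc.clm_apply continuousOn_const)
    have hNc : ContinuousOn N Ω :=
      (emb i).continuous.comp_continuousOn (hgc.neg.prodMk continuousOn_const)
    have hnc : ContinuousOn (fun x => ‖N x‖⁻¹ • N x) Ω :=
      (hNc.norm.inv₀ fun x _ => norm_ne_zero_iff.2 (hN0 x)).smul hNc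
    refine ⟨fun q => ‖N (pr i (f q))‖⁻¹ • N (pr i (f q)), ?_, ?_⟩
    · have hfc : ContMDiff 𝓘(ℝ, E2) 𝓘(ℝ, E3) 1 f := hf.contMDiff
      exact hnc.comp ((pr i).continuous.comp hfc.continuous).continuousOn
        (fun q hq => (h1 q hq).1)
    · intro q hq
      obtain ⟨h3, h4⟩ := h1 q hq
      refine ⟨?_, ?_⟩
      · rw [norm_smul, norm_inv, norm_norm]
        exact inv_mul_cancel₀ (norm_ne_zero_iff.2 (hN0 _))
      · intro w hw
        rw [← h4, (h2 _ h3).2.2, mem_setOf_eq, hfd] at hw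
        rw [real_inner_smul_left, inner_eq i]
        simp only [hN]
        rw [emb_self, pr_emb, hw]
        simp only [Prod.fst_neg, Prod.snd_neg]
        ring
  · intro n hn
    refine null_normals i hnull ?_
    rintro _ ⟨q, hq, rfl⟩
    obtain ⟨h3, h4⟩ := h1 q hq
    obtain ⟨hn1, hn2⟩ := hn.2 q hq
    set x := pr i (f q) with hx
    have hpl : tangentDir f q = {w : E3 | w i = fderiv ℝ v x (pr i w)} := by
      rw [← h4]
      exact (h2 x h3).2.2
    have e1 : (pr i (n q)).1 = - (n q i * (grad v x).1) := by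
      have hm : emb i ((1, 0), (grad v x).1) ∈ tangentDir f q := by
        rw [hpl, mem_setOf_eq, emb_self, pr_emb, hfd]; simp
      have := hn2 _ hm
      rw [inner_eq i, emb_self, pr_emb] at this
      linarith
    have e2 : (pr i (n q)).2 = - (n q i * (grad v x).2) := by
      have hm : emb i ((0, 1), (grad v x).2) ∈ tangentDir f q := by
        rw [hpl, mem_setOf_eq, emb_self, pr_emb, hfd]; simp
      have := hn2 _ hm
      rw [inner_eq i, emb_self, pr_emb] at this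
      linarith
    have e3 : n q i ≠ 0 := by
      intro h0
      have : n q = 0 := by
        apply ext_coord i
        · refine Prod.ext ?_ ?_
          · rw [e1, h0, map_zero]; simp
          · rw [e2, h0, map_zero]; simp
        · rw [h0]; rfl
      rw [this, norm_zero] at hn1
      exact zero_ne_one hn1
    refine ⟨e3, x, h3, ?_⟩
    refine Prod.ext ?_ ?_
    · simp only [Prod.fst_neg, Prod.smul_fst, smul_eq_mul]
      rw [e1]
      field_simp
    · simp only [Prod.snd_neg, Prod.smul_snd, smul_eq_mul]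
      rw [e2]
      field_simp

theorem isBECP_of_isTorse {f : M → E3} (hf : IsSurface f) (ht : IsTorse f) : IsBECP f := by
  intro p
  obtain ⟨G, hG, hp, ⟨n, hn⟩, h⟩ := local_null hf ht p
  refine ⟨G, hG, hp, n, hn, 0, fun k H _ hH _ => ?_⟩
  have h0 : ∀ i, sphereArea (n '' H i) = 0 := by
    intro i
    have h1 := h n hn
    unfold sphereArea sphArea at h1 ⊢
    refine measure_mono_null ?_ h1
    rintro u ⟨q, hq, hqu⟩
    exact ⟨q, hH i hq, hqu⟩
  rw [Finset.sum_eq_zero fun i _ => h0 i]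
  simp

end Pool.Agent.V11192.Torse
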