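import Mathlib

/-! The gradient range of a function of two variables whose gradient is constant along a segment
through every point is a null set. -/

set_option autoImplicit false

namespace Pool.Agent.V11192.Torse

open MeasureTheory Set Topology
open scoped NNReal ENNReal

/-- the gradient of a function of two variables -/
noncomputable def grad (v : ℝ × ℝ → ℝ) (x : ℝ × ℝ) : ℝ × ℝ :=
  (fderiv ℝ v x (1, 0), fderiv ℝ v x (0, 1))

/-- the image of the graph of a measurable function under a Lipschitz map is null -/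
theorem null_of_param {A : Set ℝ} {s g P : ℝ → ℝ} {K C : ℝ≥0} (hP : Measurable P)
    (hs : ∀ a ∈ A, |s a| ≤ 1) (hm : ∀ a ∈ A, |P a| ≤ C)
    (hsl : LipschitzOnWith K s A) (hgl : LipschitzOnWith K g A) :
    volume ((fun a => (P a, g a - s a * P a)) '' A) = 0 := by
  set Ψ : ℝ × ℝ → ℝ × ℝ := fun p => (p.2, g p.1 - s p.1 * p.2) with hΨ
  set T : Set (ℝ × ℝ) := (fun a => (a, P a)) '' A with hT
  have himg : (fun a => (P a, g a - s a * P a)) '' A = Ψ '' T := by
    rw [hT, image_image]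
  have hLip : LipschitzOnWith (1 + K + K * C + 1) Ψ T := by
    refine LipschitzOnWith.of_dist_le_mul ?_
    rintro _ ⟨a, ha, rfl⟩ _ ⟨b, hb, rfl⟩
    have h1 : dist (s a) (s b) ≤ K * dist a b := hsl.dist_le_mul a ha b hb
    have h2 : dist (g a) (g b) ≤ K * dist a b := hgl.dist_le_mul a ha b hb
    simp only [Real.dist_eq] at h1 h2
    have hK := K.coe_nonneg
    have hC := C.coe_nonneg
    rw [Prod.dist_eq, Prod.dist_eq]
    simp only [hΨ, Real.dist_eq]
    push_cast
    set D := max |a - b| |P a - P b| with hD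
    have hDa : |a - b| ≤ D := le_max_left _ _
    have hDP : |P a - P b| ≤ D := le_max_right _ _
    have hD0 : 0 ≤ D := (abs_nonneg _).trans hDa
    refine max_le ?_ ?_
    · calc |P a - P b| ≤ 1 * D := by linarith
        _ ≤ _ := by
            refine mul_le_mul_of_nonneg_right ?_ hD0
            nlinarith [mul_nonneg hK hC]
    · have h3 : g a - s a * P a - (g b - s b * P b) =
          (g a - g b) - (s a - s b) * P a - s b * (P a - P b) := by ring
      rw [h3]
      have h4 : |(s a - s b) * P a| ≤ K * D * C := by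
        rw [abs_mul]
        refine mul_le_mul (h1.trans ?_) (hm a ha) (abs_nonneg _) (by positivity)
        exact mul_le_mul_of_nonneg_left hDa hK
      have h5 : |s b * (P a - P b)| ≤ 1 * D := by
        rw [abs_mul]
        exact mul_le_mul (hs b hb) hDP (abs_nonneg _) zero_le_one
      have h6 : |g a - g b| ≤ K * D := h2.trans (mul_le_mul_of_nonneg_left hDa hK)
      calc |g a - g b - (s a - s b) * P a - s b * (P a - P b)|
          ≤ |g a - g b| + |(s a - s b) * P a| + |s b * (P a - P b)| := by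
            refine (abs_sub _ _).trans ?_
            exact add_le_add_left (abs_sub _ _) _
        _ ≤ K * D + K * D * C + 1 * D := by linarith
        _ ≤ (1 + K + K * C + 1) * D := by nlinarith [mul_nonneg hK hC]
  have hT0 : volume T = 0 := by
    have hmeas : MeasurableSet {p : ℝ × ℝ | p.2 = P p.1} :=
      measurableSet_eq_fun measurable_snd (hP.comp measurable_fst)
    have hnull : volume {p : ℝ × ℝ | p.2 = P p.1} = 0 := by
      rw [Measure.volume_eq_prod, Measure.measure_prod_null hmeas]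
      refine Filter.Eventually.of_forall fun a => ?_
      have : Prod.mk a ⁻¹' {p : ℝ × ℝ | p.2 = P p.1} = {P a} := by
        ext y; simp
      simp [this]
    refine measure_mono_null ?_ hnull
    rintro _ ⟨a, -, rfl⟩
    rfl
  rw [himg, ← hausdorffMeasure_prod_real]
  have h := hLip.hausdorffMeasure_image_le (d := 2) (by norm_num)
  rw [hausdorffMeasure_prod_real, hT0, mul_zero] at h
  rw [hausdorffMeasure_prod_real]
  exact le_antisymm h bot_le

/-- abscissae of the points on the line `y = q` through which passes a segment of length at least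
`r` on both sides, with constant gradient -/
def goodSet (v : ℝ × ℝ → ℝ) (Ω : Set (ℝ × ℝ)) (q r : ℝ) : Set ℝ :=
  {a | ∃ σ : ℝ, |σ| ≤ 1 ∧ ∀ t : ℝ, |t| ≤ r → (a + σ * t, q + t) ∈ Ω ∧
    fderiv ℝ v (a + σ * t, q + t) = fderiv ℝ v (a, q)}

theorem null_goodSet {v : ℝ × ℝ → ℝ} {Ω : Set (ℝ × ℝ)} (hΩ : IsOpen Ω)
    {L : ℝ≥0} (hv : DifferentiableOn ℝ v Ω) (hvL : LipschitzOnWith L v Ω) {q r : ℝ} (hr : 0 < r) :
    volume (grad v '' ((fun a => (a, q)) '' goodSet v Ω q r)) = 0 := by
  classical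
  rw [image_image]
  set A := goodSet v Ω q r with hA
  -- choose one point for each gradient value
  obtain ⟨A', hA'A, hbij⟩ := (surjOn_image (fun a => grad v (a, q)) A).exists_bijOn_subset
  rw [← hbij.image_eq]
  have hmemΩ : ∀ a ∈ A, (a, q) ∈ Ω := by
    rintro a ⟨σ, -, h⟩
    have := (h 0 (by simpa using hr.le)).1
    simpa using this
  have hdL : ∀ a ∈ A, ‖fderiv ℝ v (a, q)‖ ≤ L := by
    intro a ha
    exact norm_fderiv_le_of_lipschitzOn ℝ (hΩ.mem_nhds (hmemΩ a ha)) hvL
  -- the slopes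
  have hch : ∀ a : ℝ, ∃ σ : ℝ, a ∈ A' → |σ| ≤ 1 ∧ ∀ t : ℝ, |t| ≤ r → (a + σ * t, q + t) ∈ Ω ∧
      fderiv ℝ v (a + σ * t, q + t) = fderiv ℝ v (a, q) := by
    intro a
    by_cases ha : a ∈ A'
    · obtain ⟨σ, h1, h2⟩ := hA'A ha
      exact ⟨σ, fun _ => ⟨h1, h2⟩⟩
    · exact ⟨0, fun h => absurd h ha⟩
  choose s hs using hch
  have hval : ∀ a ∈ A', v (a + s a * r, q + r) - v (a, q) =
      r * (s a * fderiv ℝ v (a, q) (1, 0) + fderiv ℝ v (a, q) (0, 1)) := by
    intro a ha
    obtain ⟨h1, h2⟩ := hs a ha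
    set d : ℝ := s a * fderiv ℝ v (a, q) (1, 0) + fderiv ℝ v (a, q) (0, 1) with hd
    have hder : ∀ t ∈ Icc (0:ℝ) r, HasDerivAt (fun t => v (a + s a * t, q + t)) d t := by
      intro t ht
      have htr : |t| ≤ r := by rw [abs_of_nonneg ht.1]; exact ht.2
      obtain ⟨h3, h4⟩ := h2 t htr
      have h5 : HasFDerivAt v (fderiv ℝ v (a, q)) (a + s a * t, q + t) := by
        rw [← h4]
        exact ((hv _ h3).differentiableAt (hΩ.mem_nhds h3)).hasFDerivAt
      have h6 : HasDerivAt (fun t : ℝ => (a + s a * t, q + t)) (s a, 1) t := by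
        refine HasDerivAt.prodMk ?_ ?_
        · simpa using ((hasDerivAt_id t).const_mul (s a)).const_add a
        · simpa using (hasDerivAt_id t).const_add q
      have h7 := h5.comp_hasDerivAt t h6
      have h8 : fderiv ℝ v (a, q) (s a, 1) = d := by
        have : ((s a, 1) : ℝ × ℝ) = s a • (1, 0) + (0, 1) := by simp
        rw [this, map_add, map_smul, smul_eq_mul]
      rw [h8] at h7
      exact h7
    have hsub : ∀ t ∈ Icc (0:ℝ) r, HasDerivAt (fun t => v (a + s a * t, q + t) - t * d) 0 t := by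
      intro t ht
      have := (hder t ht).fun_sub ((hasDerivAt_id t).mul_const d)
      simpa using this
    have hconst := constant_of_has_deriv_right_zero (f := fun t => v (a + s a * t, q + t) - t * d)
      (a := 0) (b := r) (fun t ht => (hsub t ht).continuousAt.continuousWithinAt)
      (fun t ht => (hsub t ⟨ht.1, ht.2.le⟩).hasDerivWithinAt) r ⟨hr.le, le_rfl⟩
    simp only [mul_zero, add_zero, zero_mul, sub_zero] at hconst
    linarith
  -- the segments do not cross
  have hsl0 : ∀ a ∈ A', ∀ b ∈ A', a < b → |s b - s a| * r ≤ b - a := by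
    intro a ha b hb hab
    obtain ⟨-, ha2⟩ := hs a ha
    obtain ⟨-, hb2⟩ := hs b hb
    have hne : ∀ t : ℝ, |t| ≤ r → (b + s b * t) - (a + s a * t) ≠ 0 := by
      intro t ht h0
      have h1 := (ha2 t ht).2
      have h2 := (hb2 t ht).2
      have h3 : b + s b * t = a + s a * t := by linarith
      rw [h3, h1] at h2
      have : a = b := hbij.injOn ha hb (by simp only [grad]; rw [h2])
      exact hab.ne this
    have hpos : ∀ t : ℝ, |t| = r → 0 < (b - a) + (s b - s a) * t := by
      intro t ht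
      by_contra hcon
      push Not at hcon
      -- find the zero
      set u : ℝ := (b - a) / ((b - a) - ((b - a) + (s b - s a) * t)) with hu
      have hden : 0 < (b - a) - ((b - a) + (s b - s a) * t) := by linarith
      have hu0 : 0 ≤ u := div_nonneg (by linarith) hden.le
      have hu1 : u ≤ 1 := by rw [hu, div_le_one hden]; linarith
      apply hne (u * t)
      · rw [abs_mul, ht, abs_of_nonneg hu0]
        nlinarith
      · have : (s b - s a) * t * u = -(b - a) := by
          rw [hu]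
          field_simp
          ring_nf
        linarith [this, mul_comm (s b - s a) t]
    have h1 := hpos r (abs_of_pos hr)
    have h2 := hpos (-r) (by rw [abs_neg, abs_of_pos hr])
    rcases abs_cases (s b - s a) with ⟨h, -⟩ | ⟨h, -⟩ <;> rw [h] <;> linarith
  have hsl1 : ∀ a ∈ A', ∀ b ∈ A', |s a - s b| ≤ r⁻¹ * |a - b| := by
    intro a ha b hb
    rw [inv_mul_eq_div, le_div_iff₀ hr]
    rcases lt_trichotomy a b with h | h | h
    · rw [abs_sub_comm, abs_sub_comm a b, abs_of_pos (sub_pos.2 h)]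
      exact hsl0 a ha b hb h
    · simp [h]
    · rw [abs_of_pos (sub_pos.2 h)]
      exact hsl0 b hb a ha h
  set g : ℝ → ℝ := fun a => r⁻¹ * (v (a + s a * r, q + r) - v (a, q)) with hg
  set Kr : ℝ := r⁻¹ + r⁻¹ * (L * 2 + L) with hKr
  have hKr0 : 0 ≤ Kr := by positivity
  set K : ℝ≥0 := ⟨Kr, hKr0⟩ with hK
  have hrinv : 0 < r⁻¹ := inv_pos.2 hr
  have hsl : LipschitzOnWith K s A' := by
    refine LipschitzOnWith.of_dist_le_mul fun a ha b hb => ?_
    rw [Real.dist_eq, Real.dist_eq]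
    refine (hsl1 a ha b hb).trans ?_
    refine mul_le_mul_of_nonneg_right ?_ (abs_nonneg _)
    show r⁻¹ ≤ Kr
    rw [hKr]
    have : 0 ≤ r⁻¹ * (L * 2 + L) := by positivity
    linarith
  have hgl : LipschitzOnWith K g A' := by
    refine LipschitzOnWith.of_dist_le_mul fun a ha b hb => ?_
    rw [Real.dist_eq, Real.dist_eq]
    obtain ⟨-, ha2⟩ := hs a ha
    obtain ⟨-, hb2⟩ := hs b hb
    have hrr : |r| ≤ r := (abs_of_pos hr).le
    have e1 := hvL.dist_le_mul _ (ha2 r hrr).1 _ (hb2 r hrr).1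
    have e2 := hvL.dist_le_mul _ (hmemΩ a (hA'A ha)) _ (hmemΩ b (hA'A hb))
    rw [Prod.dist_eq, Real.dist_eq] at e1 e2
    simp only [Real.dist_eq, sub_self, abs_zero] at e1 e2
    have e3 : max |a + s a * r - (b + s b * r)| |q + r - (q + r)| ≤ 2 * |a - b| := by
      rw [sub_self, abs_zero]
      refine max_le ?_ (by positivity)
      have h3 : a + s a * r - (b + s b * r) = (a - b) + (s a - s b) * r := by ring
      rw [h3]
      refine (abs_add_le _ _).trans ?_
      rw [abs_mul, abs_of_pos hr]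
      have := mul_le_mul_of_nonneg_right (hsl1 a ha b hb) hr.le
      have h5 : r⁻¹ * |a - b| * r = |a - b| := by field_simp
      rw [h5] at this
      linarith
    have e4 : max |a - b| 0 = |a - b| := max_eq_left (abs_nonneg _)
    rw [e4] at e2
    have e5 : |g a - g b| = r⁻¹ * |(v (a + s a * r, q + r) - v (b + s b * r, q + r)) -
        (v (a, q) - v (b, q))| := by
      simp only [hg]
      rw [← mul_sub, abs_mul, abs_of_pos hrinv]
      congr 2
      ring
    rw [e5]
    have hL := L.coe_nonneg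
    have e6 : |(v (a + s a * r, q + r) - v (b + s b * r, q + r)) - (v (a, q) - v (b, q))| ≤
        (L * 2 + L) * |a - b| := by
      refine (abs_sub _ _).trans ?_
      have := mul_le_mul_of_nonneg_left e3 hL
      simp only [sub_self, abs_zero] at this
      nlinarith [e1, e2]
    calc r⁻¹ * |(v (a + s a * r, q + r) - v (b + s b * r, q + r)) - (v (a, q) - v (b, q))|
        ≤ r⁻¹ * ((L * 2 + L) * |a - b|) := mul_le_mul_of_nonneg_left e6 hrinv.le
      _ = r⁻¹ * (L * 2 + L) * |a - b| := by ring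
      _ ≤ Kr * |a - b| := by
          refine mul_le_mul_of_nonneg_right ?_ (abs_nonneg _)
          rw [hKr]; linarith
  have hPm : Measurable fun a : ℝ => fderiv ℝ v (a, q) (1, 0) :=
    (measurable_fderiv_apply_const ℝ v (1, 0)).comp (measurable_id.prodMk measurable_const)
  have hmain := null_of_param (A := A') (s := s) (g := g)
    (P := fun a => fderiv ℝ v (a, q) (1, 0)) (K := K) (C := L) hPm
    (fun a ha => (hs a ha).1) (fun a ha => by
      have h1 := (fderiv ℝ v (a, q)).le_opNorm (1, 0)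
      have h2 : ‖((1 : ℝ), (0 : ℝ))‖ = 1 := by simp [Prod.norm_def]
      rw [h2, mul_one, Real.norm_eq_abs] at h1
      exact h1.trans (hdL a (hA'A ha))) hsl hgl
  refine measure_mono_null ?_ hmain
  rintro _ ⟨a, ha, rfl⟩
  refine ⟨a, ha, ?_⟩
  simp only [grad, hg]
  rw [hval a ha]
  refine Prod.ext rfl ?_
  simp only
  field_simp
  ring

/-- through every point of `Ω` passes a segment contained in `Ω` along which the gradient of `v`
is constant -/
def PlanarTorse (v : ℝ × ℝ → ℝ) (Ω : Set (ℝ × ℝ)) : Prop :=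
  ∀ x ∈ Ω, ∃ w : ℝ × ℝ, w ≠ 0 ∧ ∃ ε > 0, ∀ t : ℝ, |t| < ε →
    x + t • w ∈ Ω ∧ fderiv ℝ v (x + t • w) = fderiv ℝ v x

/-- a point with a steep direction is seen from a good set -/
theorem mem_iUnion_goodSet {v : ℝ × ℝ → ℝ} {Ω : Set (ℝ × ℝ)} {x w : ℝ × ℝ} {ε : ℝ} (hε : 0 < ε)
    (hw : |w.1| ≤ |w.2|) (hw0 : w.2 ≠ 0)
    (h : ∀ t : ℝ, |t| < ε → x + t • w ∈ Ω ∧ fderiv ℝ v (x + t • w) = fderiv ℝ v x) :
    ∃ q r : ℚ, 0 < r ∧ grad v x ∈ grad v '' ((fun a : ℝ => (a, (q : ℝ))) '' goodSet v Ω q r) := by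
  set ε' : ℝ := ε * |w.2| with hε'
  have hw2 : 0 < |w.2| := abs_pos.2 hw0
  have hε'0 : 0 < ε' := mul_pos hε hw2
  obtain ⟨q, hq1, hq2⟩ := exists_rat_btwn (show x.2 < x.2 + ε' / 2 by linarith)
  obtain ⟨r, hr1, hr2⟩ := exists_rat_btwn (show (0:ℝ) < ε' / 2 by linarith)
  have hr0 : 0 < r := by exact_mod_cast hr1
  set σ : ℝ := w.1 / w.2 with hσ
  have key : ∀ t : ℝ, |t| < ε' → (x.1 + σ * t, x.2 + t) ∈ Ω ∧
      fderiv ℝ v (x.1 + σ * t, x.2 + t) = fderiv ℝ v x := by
    intro t ht
    have h1 : |t / w.2| < ε := by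
      rw [abs_div, div_lt_iff₀ hw2]
      exact ht
    have h2 : x + (t / w.2) • w = (x.1 + σ * t, x.2 + t) := by
      refine Prod.ext ?_ ?_
      · simp only [Prod.fst_add, Prod.smul_fst, smul_eq_mul, hσ]
        ring
      · simp only [Prod.snd_add, Prod.smul_snd, smul_eq_mul]
        field_simp
    have := h _ h1
    rwa [h2] at this
  set b : ℝ := x.1 + σ * (q - x.2) with hb
  have hqx : |(q : ℝ) - x.2| < ε' / 2 := by
    rw [abs_of_pos (by linarith)]; linarith
  have hbx : fderiv ℝ v (b, (q : ℝ)) = fderiv ℝ v x := by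
    have := (key (q - x.2) (by linarith)).2
    simpa [hb] using this
  refine ⟨q, r, hr0, (b, (q : ℝ)), ⟨b, ?_, rfl⟩, ?_⟩
  · refine ⟨σ, ?_, ?_⟩
    · rw [hσ, abs_div, div_le_one hw2]
      exact hw
    · intro t ht
      have h3 : |(q : ℝ) - x.2 + t| < ε' := by
        refine (abs_add_le _ _).trans_lt ?_
        linarith
      have h4 := key _ h3
      have h5 : (x.1 + σ * ((q : ℝ) - x.2 + t), x.2 + ((q : ℝ) - x.2 + t)) =
          (b + σ * t, (q : ℝ) + t) := by
        refine Prod.ext ?_ ?_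
        · simp only [hb]; ring
        · simp only; ring
      rw [h5] at h4
      exact ⟨h4.1, h4.2.trans hbx.symm⟩
  · simp only [grad, hbx]

theorem grad_swap {v : ℝ × ℝ → ℝ} {x : ℝ × ℝ} (hv : DifferentiableAt ℝ v x.swap) :
    grad (v ∘ Prod.swap) x = (grad v x.swap).swap := by
  have h1 : HasFDerivAt (Prod.swap : ℝ × ℝ → ℝ × ℝ)
      ((ContinuousLinearMap.snd ℝ ℝ ℝ).prod (ContinuousLinearMap.fst ℝ ℝ ℝ)) x :=
    ((ContinuousLinearMap.snd ℝ ℝ ℝ).prod (ContinuousLinearMap.fst ℝ ℝ ℝ)).hasFDerivAt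
  have h2 := (hv.hasFDerivAt.comp x h1).fderiv
  simp only [grad]
  rw [h2]
  rfl

/-- The gradient range of a differentiable Lipschitz function whose gradient is constant along a
segment through every point is a null set. -/
theorem null_grad {v : ℝ × ℝ → ℝ} {Ω : Set (ℝ × ℝ)} (hΩ : IsOpen Ω)
    {L : ℝ≥0} (hv : DifferentiableOn ℝ v Ω) (hvL : LipschitzOnWith L v Ω)
    (ht : PlanarTorse v Ω) : volume (grad v '' Ω) = 0 := by
  set Ω' : Set (ℝ × ℝ) := Prod.swap ⁻¹' Ω with hΩ'
  set v' : ℝ × ℝ → ℝ := v ∘ Prod.swap with hv'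
  have hΩ'o : IsOpen Ω' := hΩ.preimage continuous_swap
  have hsw : Differentiable ℝ (Prod.swap : ℝ × ℝ → ℝ × ℝ) :=
    ((ContinuousLinearMap.snd ℝ ℝ ℝ).prod (ContinuousLinearMap.fst ℝ ℝ ℝ)).differentiable
  have hv'd : DifferentiableOn ℝ v' Ω' := hv.comp hsw.differentiableOn (fun x hx => hx)
  have hv'L : LipschitzOnWith L v' Ω' := by
    refine LipschitzOnWith.of_dist_le_mul fun x hx y hy => ?_
    have := hvL.dist_le_mul _ hx _ hy
    refine this.trans (le_of_eq ?_)
    rw [Prod.dist_eq, Prod.dist_eq]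
    simp [max_comm]
  have hdv : ∀ x ∈ Ω, DifferentiableAt ℝ v x := fun x hx =>
    (hv x hx).differentiableAt (hΩ.mem_nhds hx)
  -- the two unions
  have h1 : volume (⋃ q : ℚ, ⋃ r : ℚ, ⋃ _ : 0 < r,
      grad v '' ((fun a : ℝ => (a, (q : ℝ))) '' goodSet v Ω q r)) = 0 := by
    refine measure_iUnion_null fun q => measure_iUnion_null fun r => measure_iUnion_null fun hr => ?_
    exact null_goodSet hΩ hv hvL (by exact_mod_cast hr)
  have h2 : volume (⋃ q : ℚ, ⋃ r : ℚ, ⋃ _ : 0 < r,
      grad v' '' ((fun a : ℝ => (a, (q : ℝ))) '' goodSet v' Ω' q r)) = 0 := by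
    refine measure_iUnion_null fun q => measure_iUnion_null fun r => measure_iUnion_null fun hr => ?_
    exact null_goodSet hΩ'o hv'd hv'L (by exact_mod_cast hr)
  have h3 : volume (Prod.swap ⁻¹' (⋃ q : ℚ, ⋃ r : ℚ, ⋃ _ : 0 < r,
      grad v' '' ((fun a : ℝ => (a, (q : ℝ))) '' goodSet v' Ω' q r))) = 0 := by
    have hmp : MeasurePreserving (Prod.swap : ℝ × ℝ → ℝ × ℝ) volume volume :=
      Measure.measurePreserving_swap
    exact hmp.quasiMeasurePreserving.preimage_null h2
  refine measure_mono_null ?_ (measure_union_null h1 h3)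
  rintro _ ⟨x, hx, rfl⟩
  obtain ⟨w, hw, ε, hε, h⟩ := ht x hx
  rcases le_total |w.1| |w.2| with hle | hle
  · left
    have hw2 : w.2 ≠ 0 := by
      intro h0
      rw [h0, abs_zero] at hle
      exact hw (Prod.ext (abs_nonpos_iff.1 hle) h0)
    obtain ⟨q, r, hr, hmem⟩ := mem_iUnion_goodSet hε hle hw2 h
    exact mem_iUnion.2 ⟨q, mem_iUnion.2 ⟨r, mem_iUnion.2 ⟨hr, hmem⟩⟩⟩
  · right
    have hw1 : w.1 ≠ 0 := by
      intro h0
      rw [h0, abs_zero] at hle
      exact hw (Prod.ext h0 (abs_nonpos_iff.1 hle))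
    have h' : ∀ t : ℝ, |t| < ε → x.swap + t • w.swap ∈ Ω' ∧
        fderiv ℝ v' (x.swap + t • w.swap) = fderiv ℝ v' x.swap := by
      intro t htt
      obtain ⟨ha, hb⟩ := h t htt
      have hc : x.swap + t • w.swap = (x + t • w).swap := by
        refine Prod.ext ?_ ?_ <;> simp
      have key : ∀ y ∈ Ω, fderiv ℝ v' y.swap = (fderiv ℝ v y).comp
          ((ContinuousLinearMap.snd ℝ ℝ ℝ).prod (ContinuousLinearMap.fst ℝ ℝ ℝ)) := by
        intro y hy
        have h1 : HasFDerivAt (Prod.swap : ℝ × ℝ → ℝ × ℝ)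
          ((ContinuousLinearMap.snd ℝ ℝ ℝ).prod (ContinuousLinearMap.fst ℝ ℝ ℝ)) y.swap :=
          ((ContinuousLinearMap.snd ℝ ℝ ℝ).prod (ContinuousLinearMap.fst ℝ ℝ ℝ)).hasFDerivAt
        have h2 : HasFDerivAt v (fderiv ℝ v y) (Prod.swap y.swap) := by
          rw [Prod.swap_swap]; exact (hdv y hy).hasFDerivAt
        exact (h2.comp _ h1).fderiv
      refine ⟨?_, ?_⟩
      · rw [hc]; exact ha
      · rw [hc, key _ ha, key _ hx, hb]
    obtain ⟨q, r, hr, hmem⟩ := mem_iUnion_goodSet (x := x.swap) (w := w.swap) hε hle hw1 h'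
    refine mem_preimage.2 (mem_iUnion.2 ⟨q, mem_iUnion.2 ⟨r, mem_iUnion.2 ⟨hr, ?_⟩⟩⟩)
    have hg : grad v' x.swap = (grad v x).swap := by
      have := grad_swap (v := v) (x := x.swap) (by rw [Prod.swap_swap]; exact hdv x hx)
      rwa [Prod.swap_swap] at this
    rw [← hg]
    exact hmem

end Pool.Agent.V11192.Torse
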