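import Pool.Agent.V11192.Torse.Defs
import Pool.Agent.V11192.Torse.Planar

/-! Null sets of the unit sphere. -/

set_option autoImplicit false

namespace Pool.Agent.V11192.Torse

open MeasureTheory Set Topology Metric
open scoped Manifold NNReal ENNReal InnerProductSpace Pointwise

theorem toSphere_null {s : Set (sphere (0 : E3) 1)}
    (h : volume (Ioo (0 : ℝ) 1 • ((↑) '' s : Set E3)) = 0) :
    (volume : Measure E3).toSphere s = 0 := by
  have hmp := (volume : Measure E3).measurePreserving_homeomorphUnitSphereProd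
  have h1 := hmp.measure_preimage_emb (homeomorphUnitSphereProd E3).measurableEmbedding
    (s ×ˢ Iio ⟨1, mem_Ioi.2 one_pos⟩)
  rw [Measure.prod_prod, comap_subtype_coe_apply (measurableSet_singleton _).compl,
    Measure.toSphere_apply_aux] at h1
  rw [h] at h1
  rcases mul_eq_zero.1 h1.symm with h2 | h2
  · exact h2
  · rw [Measure.volumeIoiPow_apply_Iio] at h2
    exfalso
    rw [ENNReal.ofReal_eq_zero] at h2
    norm_num at h2

/-- the coordinates other than the `i`-th one -/
noncomputable def pr (i : Fin 3) : E3 →L[ℝ] ℝ × ℝ :=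
  (EuclideanSpace.proj (i.succAbove 0)).prod (EuclideanSpace.proj (i.succAbove 1))

/-- the point with given coordinates -/
noncomputable def emb (i : Fin 3) : (ℝ × ℝ) × ℝ →L[ℝ] E3 :=
  ((ContinuousLinearMap.fst ℝ ℝ ℝ).comp (ContinuousLinearMap.fst ℝ (ℝ × ℝ) ℝ)).smulRight
      (EuclideanSpace.single (i.succAbove 0) (1 : ℝ)) +
    ((ContinuousLinearMap.snd ℝ ℝ ℝ).comp (ContinuousLinearMap.fst ℝ (ℝ × ℝ) ℝ)).smulRight
      (EuclideanSpace.single (i.succAbove 1) (1 : ℝ)) +
    (ContinuousLinearMap.snd ℝ (ℝ × ℝ) ℝ).smulRight (EuclideanSpace.single i (1 : ℝ))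

theorem pr_apply (i : Fin 3) (w : E3) : pr i w = (w (i.succAbove 0), w (i.succAbove 1)) := rfl

theorem emb_self (i : Fin 3) (x : ℝ × ℝ) (c : ℝ) : emb i (x, c) i = c := by
  simp [emb, Fin.succAbove_ne, (Fin.succAbove_ne i _).symm]

theorem emb_zero (i : Fin 3) (x : ℝ × ℝ) (c : ℝ) : emb i (x, c) (i.succAbove 0) = x.1 := by
  simp [emb, Fin.succAbove_ne, (Fin.succAbove_ne i _).symm, Fin.succAbove_right_inj]

theorem emb_one (i : Fin 3) (x : ℝ × ℝ) (c : ℝ) : emb i (x, c) (i.succAbove 1) = x.2 := by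
  simp [emb, Fin.succAbove_ne, (Fin.succAbove_ne i _).symm, Fin.succAbove_right_inj]

theorem pr_emb (i : Fin 3) (x : ℝ × ℝ) (c : ℝ) : pr i (emb i (x, c)) = x := by
  rw [pr_apply, emb_zero, emb_one]

theorem ext_coord (i : Fin 3) {w w' : E3} (h1 : pr i w = pr i w') (h2 : w i = w' i) : w = w' := by
  rw [pr_apply, pr_apply, Prod.mk.injEq] at h1
  ext k
  rcases Fin.eq_self_or_eq_succAbove i k with rfl | ⟨j, rfl⟩
  · exact h2
  · fin_cases j
    · exact h1.1
    · exact h1.2

theorem emb_pr (i : Fin 3) (w : E3) : emb i (pr i w, w i) = w :=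
  ext_coord i (pr_emb i _ _) (emb_self i _ _)

theorem inner_eq (i : Fin 3) (n w : E3) :
    ⟪n, w⟫_ℝ = n i * w i + ((pr i n).1 * (pr i w).1 + (pr i n).2 * (pr i w).2) := by
  rw [PiLp.inner_apply, Fin.sum_univ_succAbove _ i, Fin.sum_univ_two]
  simp only [pr_apply, RCLike.inner_apply, conj_trivial]
  ring

/-- coordinates as a linear equivalence -/
noncomputable def coordEquiv (i : Fin 3) : E3 ≃L[ℝ] (ℝ × ℝ) × ℝ :=
  ContinuousLinearEquiv.equivOfInverse ((pr i).prod (EuclideanSpace.proj i)) (emb i)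
    (fun w => emb_pr i w) (fun x => Prod.ext (pr_emb i _ _) (emb_self i _ _))

/-- cylinders over null sets are null -/
theorem null_cyl (i : Fin 3) {S : Set (ℝ × ℝ)} (hS : volume S = 0) :
    volume {w : E3 | pr i w ∈ S} = 0 := by
  have h1 : (volume : Measure ((ℝ × ℝ) × ℝ)) (S ×ˢ univ) = 0 := by
    rw [Measure.volume_eq_prod, Measure.prod_prod, hS, zero_mul]
  have h2 : (Measure.map (coordEquiv i) (volume : Measure E3)).IsAddHaarMeasure :=
    (coordEquiv i).isAddHaarMeasure_map _
  have h6 : (volume : Measure (ℝ × ℝ)).IsAddHaarMeasure := by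
    rw [Measure.volume_eq_prod]; infer_instance
  have h7 : (volume : Measure ((ℝ × ℝ) × ℝ)).IsAddHaarMeasure := by
    rw [Measure.volume_eq_prod]; infer_instance
  have h3 : (Measure.map (coordEquiv i) (volume : Measure E3)) ≪ volume :=
    Measure.absolutelyContinuous_isAddHaarMeasure _ _
  have h4 := h3 h1
  have h5 : Measure.map (coordEquiv i) (volume : Measure E3) (S ×ˢ univ) =
      volume ((coordEquiv i) ⁻¹' (S ×ˢ univ)) :=
    (coordEquiv i).toHomeomorph.toMeasurableEquiv.map_apply _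
  rw [h5] at h4
  refine measure_mono_null ?_ h4
  intro w hw
  exact ⟨hw, mem_univ _⟩

/-- the set of normals of planes with slopes in a null set is null -/
theorem null_normals (i : Fin 3) {S : Set (ℝ × ℝ)} (hS : volume S = 0) {N : Set E3}
    (hN : ∀ n ∈ N, n i ≠ 0 ∧ -((n i)⁻¹ • pr i n) ∈ S) : sphereArea N = 0 := by
  apply toSphere_null
  set Θ : E3 → E3 := fun w => emb i (-(w i • pr i w), w i) with hΘ
  have hd : Differentiable ℝ Θ := by
    have h1 : Differentiable ℝ fun w : E3 => w i := (EuclideanSpace.proj (𝕜 := ℝ) i).differentiable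
    exact (emb i).differentiable.comp ((h1.smul (pr i).differentiable).neg.prodMk h1)
  have h0 : volume (Θ '' {w : E3 | pr i w ∈ S}) = 0 :=
    addHaar_image_eq_zero_of_differentiableOn_of_addHaar_eq_zero _ hd.differentiableOn
      (null_cyl i hS)
  refine measure_mono_null ?_ h0
  rintro _ ⟨t, ht, _, ⟨u, hu, rfl⟩, rfl⟩
  obtain ⟨h1, h2⟩ := hN _ hu
  refine ⟨emb i (-(((u : E3) i)⁻¹ • pr i (u : E3)), t * (u : E3) i), ?_, ?_⟩
  · show pr i _ ∈ S
    rw [pr_emb]
    exact h2
  · simp only [hΘ]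
    rw [pr_emb, emb_self]
    apply ext_coord i
    · rw [pr_emb]
      simp only [map_smul, smul_neg, neg_neg, smul_smul]
      congr 1
      field_simp
    · rw [emb_self]
      rfl

end Pool.Agent.V11192.Torse
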